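import Pool.Agent.H.DiscRat.VStat
import Pool.Agent.H.DiscRat.VRat
import Pool.Agent.H.DiscRat.VExist
import Pool.Agent.H.DiscRat.VAlt

/-!
# The varieties `c * disc (f) = y ^ 2` are rational

For every field `k` of characteristic zero, every `n ≥ 2` and every nonzero `c` in `k` the function
field over `k` of the variety of all pairs `(f, y)`, `f = X ^ n + a_{n-1} X ^ (n-1) + ... + a_0`,
`c * disc (f) = y ^ 2`, is purely transcendental.  For `c = 1` it is the invariant field
`k(x_1, ..., x_n)^{A_n}` of the alternating group (`altInv_isDiscField` below), so this contains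
a positive answer to Noether's problem for all alternating groups.

Let `x_1, ..., x_n` be the zeros of `f`, `S` the matrix with entries `1 / (x_i - x_j)` for `i ≠ j`
and zero diagonal (a Calogero–Moser matrix), `D = diag(x_1, ..., x_n)`, so that
`D S - S D = 1 1ᵀ - I`.  The generators are: the coefficients of the characteristic polynomial of
`S` (only every second one is nonzero), the lowest nonzero one `τ` being replaced by the square
root of `c τ`, and the elements `1ᵀ D S^(2l) 1`, `0 ≤ 2l < n`.
-/

namespace Pool.Agent.H.MP_83e36b_nt.old.AlternatingRational

universe u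

/-- Such function fields exist. -/
theorem exists_field (k : Type u) [Field k] (n : ℕ) (c : k) :
    ∃ (F : Type u) (_ : Field F) (_ : Algebra k F) (a : Fin n → F) (y : F),
      DiscRat.IsDiscField k c a y :=
  DiscRat.exists_discField k n c

/-- For `c = 1` the function field is the field `k(x_1, ..., x_n)^{A_n}` of all rational
functions in `n` variables which are invariant under the even permutations: the `a_j` are the
coefficients of `∏ (X - x_i)`, and `y` is the product of the differences of the variables. -/
theorem alternating (k : Type*) [Field k] [CharZero k] (n : ℕ) :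
    DiscRat.IsDiscField k (1 : k)
      (fun j : Fin n => (⟨DiscRat.co (NoetherAn.vr k n) j, DiscRat.co_mem_altInv k n j⟩ :
        NoetherAn.altInv k n))
      (⟨DiscRat.vdm k n, DiscRat.vdm_mem_altInv k n⟩ : NoetherAn.altInv k n) :=
  DiscRat.altInv_isDiscField k n

/-- The function field `F` over `k` of the variety `c * disc (f) = y ^ 2`, `f` monic of degree
`n ≥ 2`, is purely transcendental: `F = k(t_1, ..., t_n)` with algebraically independent
`t_1, ..., t_n`. -/
theorem result {k : Type*} [Field k] [CharZero k] {n : ℕ} (hn : 2 ≤ n) {c : k} (hc : c ≠ 0)
    {F : Type*} [Field F] [Algebra k F] {a : Fin n → F} {y : F}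
    (hF : DiscRat.IsDiscField k c a y) :
    ∃ t : Fin n → F, AlgebraicIndependent k t ∧
      IntermediateField.adjoin k (Set.range t) = ⊤ :=
  DiscRat.disc_rational hn hc hF

end Pool.Agent.H.MP_83e36b_nt.old.AlternatingRational
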