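import Pool.Agent.H.MP_83e36b_nt.nr.Galois
import Pool.Agent.H.MP_83e36b_nt.wa.All

/-! Weak approximation for homogeneous spaces of `SL_M` with finite stabilizers whose composition
factors are alternating groups.

Let `K/k` be a finite Galois extension of number fields and `1 → N → G → Gal(K/k) → 1` an extension
such that all composition factors of `N` are alternating groups `A_n`, `n ≥ 5`, `n ≠ 6` (or, more
generally, such that `N` is the top of a Weyl tower).  Let `G` act faithfully and semilinearly on
`K(x_1, ..., x_d)`.  Let `X` be a smooth hypersurface model `f(u, y) = 0`, `∂f/∂y ≠ 0`, `g ≠ 0`, over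
`k` whose field of functions is stably isomorphic to the field of invariants `K(x)^G`.  Then the
`k`-points of `X` are dense in the product of the points of `X` over all completions of `k`. -/

set_option autoImplicit false

open Polynomial NumberField IsDedekindDomain

namespace Pool.Agent.Results.MP_83e36b_nt.AlternatingStabilizers

open CM83 NR83 WA83

universe u v w x

/-- Main theorem. -/
theorem result {k : Type u} [Field k] [NumberField k] {K : Type w} [Field K] [Algebra k K]
    {G : Type v} [Group G] [Finite G] (N : Subgroup G) [N.Normal]
    (hN : AltSeries N ∨ Tower G N) (α : G ⧸ N →* (K ≃ₐ[k] K)) (hα : Function.Injective α)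
    (hfix : fixF α = ⊥) {d : ℕ} (β : G →* (RF K d ≃ₐ[k] RF K d))
    (hβ : SemiLin (α.comp (QuotientGroup.mk' N)) β)
    {m : ℕ} {f g : (MvPolynomial (Fin m) k)[X]} {F : Type x} [Field F] [Algebra k F]
    {ξ : Fin m → F} {η : F} (h : Generic f F ξ η) (hg : evP (algebraMap k F) ξ η g ≠ 0)
    (hF : StablyIso k F (fixF β)) :
    DenseRange (fun p : Pts f g (RingHom.id k) =>
      ((fun v : InfinitePlace k => mapPts (algebraMap k v.Completion) p),
       (fun v : HeightOneSpectrum (𝓞 k) => mapPts (algebraMap k (v.adicCompletion k)) p))) := by
  have hT : Tower G N := hN.elim (Tower.of_alt N) id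
  exact dense_all h hg (hF.trans (stably_rational hT α hα hfix β hβ))

end Pool.Agent.Results.MP_83e36b_nt.AlternatingStabilizers
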