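import Pool.Agent.H.MP_83e36b_nt.dc.FinC

/-! Weak approximation for homogeneous spaces of `SL_M` over `ℚ` with stabilizer `2.A_n`.

Let `n ≥ 4` and let `2.A_n` be the double cover of the alternating group, realised in the Clifford
algebra of `x_1² + ... + x_n²`.  Let `G` be a finite group with a normal subgroup `N` all of whose
composition factors are alternating groups `A_m`, `m ≥ 5`, `m ≠ 6` (for example `N = 1`), or which is
the top of a Weyl tower, with `G / N ≅ 2.A_n`.  Let `V` be a faithful linear representation of `G`
over `ℚ` and `X` a smooth hypersurface model `f(x, y) = 0`, `∂f/∂y ≠ 0`, `g ≠ 0` over `ℚ` of a variety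
stably birational to `V / G` (for example to `SL_M / G`).  Then the rational points of `X` are dense
in the product of the points of `X` over all completions of `ℚ`. -/

set_option autoImplicit false

open Polynomial

namespace Pool.Agent.Results.MP_83e36b_nt.DoubleCovers

open NR83 DC83

universe u

/-- Main theorem. -/
theorem result {n : ℕ} (hn : 4 ≤ n) {G : Type u} [Group G] [Finite G] (N : Subgroup G) [N.Normal]
    (hN : AltSeries N ∨ Tower G N) (hG : QuotTwoAlt n N) {m : ℕ}
    {f g : (MvPolynomial (Fin m) ℚ)[X]} (h : QuotModel ℚ G f g) : WeakApprox f g :=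
  main_two hn N hN hG h

end Pool.Agent.Results.MP_83e36b_nt.DoubleCovers
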