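import Pool.Agent.H.MP_83e36b_nt.nf.Main

/-! Weak approximation over number fields for homogeneous spaces of `SL_M` whose finite geometric
stabilizers are extensions of products of the double covers `2.A_6`, `2.A_7` by groups with alternating
composition factors.

Let `K/k` be a finite Galois extension of number fields and `N` a normal subgroup of the finite group `G`
such that all composition factors of `N` are alternating groups `A_n`, `n ≥ 5`, `n ≠ 6` (or, more
generally, such that `N` is the top of a Weyl tower), and `G / N = Gal(K/k) × 2.A_{n_1} × ... × 2.A_{n_r}`,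
`n_i ∈ {6, 7}`, `r ≥ 0` (`GalDbl`).  Let `G` act faithfully and semilinearly on `K(x_1, ..., x_d)`, by
`α : G → Gal(K/k)` on `K`.  Let `X` be a smooth hypersurface model `f(u, y) = 0`, `∂f/∂y ≠ 0`, `g ≠ 0`,
over `k` whose field of functions is stably isomorphic to the field of invariants `K(x)^G`.  Then the
`k`-points of `X` are dense in the product of the points of `X` over all completions of `k`. -/

set_option autoImplicit false

open Polynomial NumberField IsDedekindDomain

namespace Pool.Agent.Results.MP_83e36b_nt.NumberFieldDoubleCovers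

open CM83 NR83 WA83 DC83 NF83

universe v w x

/-- Main theorem. -/
theorem result {k : Type} [Field k] [NumberField k] {K : Type w} [Field K] [Algebra k K]
    {G : Type v} [Group G] [Finite G] (N : Subgroup G) [N.Normal] (hN : AltSeries N ∨ Tower G N)
    (α : G ⧸ N →* (K ≃ₐ[k] K)) (hfix : fixF α = ⊥) {r : ℕ} (n : Fin r → ℕ)
    (χ : ∀ i, G ⧸ N →* CMat (n i)) (hχ : GalDbl α n χ) {d : ℕ} (β : G →* (RF K d ≃ₐ[k] RF K d))
    (hβ : SemiLin (α.comp (QuotientGroup.mk' N)) β)
    {m : ℕ} {f g : (MvPolynomial (Fin m) k)[X]} {F : Type x} [Field F] [Algebra k F]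
    {ξ : Fin m → F} {η : F} (h : Generic f F ξ η) (hg : evP (algebraMap k F) ξ η g ≠ 0)
    (hF : StablyIso k F (fixF β)) :
    DenseRange (fun p : Pts f g (RingHom.id k) =>
      ((fun v : InfinitePlace k => mapPts (algebraMap k v.Completion) p),
       (fun v : HeightOneSpectrum (𝓞 k) => mapPts (algebraMap k (v.adicCompletion k)) p))) :=
  main N hN α hfix n χ hχ β hβ h hg hF

end Pool.Agent.Results.MP_83e36b_nt.NumberFieldDoubleCovers
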