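import Pool.Agent.H.MP_83e36b_nt.sp.Final

/-! Weak approximation for homogeneous spaces of `Spin(Q)` with stabiliser `2.A_n`.

Let `Q` be a symmetric invertible rational matrix of size `n ≥ 4` and `X_Q` the variety of the pairs
`(f, B)`, `f` monic of degree `n`, `B` an invertible matrix such that `Bᵀ Q B` is the matrix of the
trace form `Tr (u v)` of `ℚ[X]/(f)` in the basis `1, x, ..., x^(n-1)`.  We show that `X_Q(ℚ)` is
dense in `X_Q(ℝ) × ∏_p X_Q(ℚ_p)`; in particular `X_Q` satisfies the Hasse principle. -/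

namespace Pool.Agent.Results.MP_83e36b_nt.SpinAlternating

open SpinWA Matrix

/-- Main theorem. -/
theorem result {n : ℕ} (hn : 4 ≤ n) (Q : Matrix (Fin n) (Fin n) ℚ) (hQ : Qᵀ = Q)
    (hd : Q.det ≠ 0) :
    DenseRange (fun x : XTr Q ℚ => ((mapX ℝ x, fun p : Nat.Primes => mapX ℚ_[(p : ℕ)] x) :
      XTr Q ℝ × ∀ p : Nat.Primes, XTr Q ℚ_[(p : ℕ)])) :=
  dense_XTr hn hQ hd

end Pool.Agent.Results.MP_83e36b_nt.SpinAlternating
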